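import Pool.Agent.Lib.Forcing.Func

/-!
Forcing with an arbitrary preorder `P`: the regular open algebra `RO P`, the forcing relation
`Fo p Φ`, density lemmas, names of ordinals and of ground-model sets and functions, and
preservation lemmas for distributive forcing.
-/

set_option autoImplicit false
set_option linter.unusedSectionVars false

namespace Pool.Agent.Lib.PosetForcing

open Pool.Agent.Lib.Forcing Heyting Set Cardinal

/-- The completion of a preorder. -/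
def RO (P : Type) [Preorder P] : Type := Regular (LowerSet P)

noncomputable instance (P : Type) [Preorder P] : CompleteBooleanAlgebra (RO P) :=
  { (inferInstance : BooleanAlgebra (Regular (LowerSet P))),
    (Regular.gi (α := LowerSet P)).liftCompleteLattice with }

section poset
variable {P : Type} [Preorder P]

/-- The image of a condition. -/
noncomputable def io (p : P) : RO P := Regular.toRegular (LowerSet.Iic p)

theorem io_le {p : P} {b : RO P} : io p ≤ b ↔ p ∈ (Regular.val b : LowerSet P) :=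
  ((Regular.gi (α := LowerSet P)).gc _ _).trans LowerSet.Iic_le

theorem mem_compl {s : LowerSet P} {x : P} : x ∈ sᶜ ↔ ∀ y ≤ x, y ∉ s := by
  rw [← LowerSet.Iic_le, le_compl_iff_disjoint_right, disjoint_iff, eq_bot_iff]
  exact ⟨fun h y h1 h2 => @h y ⟨h1, h2⟩, fun h y hy => h y hy.1 hy.2⟩

theorem io_mono {p q : P} (h : q ≤ p) : io q ≤ io p :=
  io_le.2 ((Regular.val (io p) : LowerSet P).lower h (io_le.1 le_rfl))

theorem io_ne_bot (p : P) : io p ≠ ⊥ := fun h => io_le.1 h.le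

theorem exists_io_le {b : RO P} (hb : b ≠ ⊥) : ∃ p, io p ≤ b := by
  by_contra h
  push Not at h
  exact hb (eq_bot_iff.2 fun p hp => (h p (io_le.2 hp)).elim)

theorem exists_le_of_inf {p : P} {b : RO P} (h : io p ⊓ b ≠ ⊥) : ∃ r ≤ p, io r ≤ b := by
  obtain ⟨q, hq⟩ := exists_io_le h
  have h1 : q ∈ (LowerSet.Iic p)ᶜᶜ := io_le.1 (hq.trans inf_le_left)
  have h2 := mem_compl.1 h1 q le_rfl
  rw [mem_compl] at h2
  push Not at h2
  obtain ⟨r, h3, h4⟩ := h2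
  exact ⟨r, h4, (io_mono h3).trans (hq.trans inf_le_right)⟩

/-- `p` forces `Φ`. -/
def Fo (p : P) (Φ : Ult (RO P) → Prop) : Prop := ∀ U : Ult (RO P), U.P (io p) → Φ U

theorem Fo.mono {p q : P} {Φ : Ult (RO P) → Prop} (h : Fo p Φ) (hq : q ≤ p) : Fo q Φ :=
  fun U hU => h U (U.mono (io_mono hq) hU)

theorem exists_ult (p : P) : ∃ U : Ult (RO P), U.P (io p) := Ult.exists_mem (io_ne_bot p)

theorem Fo.elim {p : P} {Φ : Ult (RO P) → Prop} (h : Fo p Φ) : ∃ U, Φ U :=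
  (exists_ult p).imp h

theorem exists_fo (Φ : Ult (RO P) → Prop) [Rep Φ] {U : Ult (RO P)} {p : P} (hp : U.P (io p))
    (h : Φ U) : ∃ r ≤ p, Fo r Φ := by
  obtain ⟨r, h1, h2⟩ := exists_le_of_inf (p := p) (b := bv Φ) fun e =>
    U.bot (e ▸ (U.inf _ _).2 ⟨hp, (bv_iff Φ U).2 h⟩)
  exact ⟨r, h1, fun V hV => (bv_iff Φ V).1 (V.mono h2 hV)⟩

theorem exists_fo' (Φ : Ult (RO P) → Prop) [Rep Φ] {U : Ult (RO P)} (h : Φ U) : ∃ r, Fo r Φ := by
  obtain ⟨r, h2⟩ := exists_io_le (b := bv Φ) fun e => U.bot (e ▸ (bv_iff Φ U).2 h)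
  exact ⟨r, fun V hV => (bv_iff Φ V).1 (V.mono h2 hV)⟩

theorem exists_common {U : Ult (RO P)} {p q : P} (hp : U.P (io p)) (hq : U.P (io q)) :
    ∃ r, r ≤ p ∧ r ≤ q := by
  obtain ⟨r, h1, h2⟩ := exists_le_of_inf (p := p) (b := io q) fun e =>
    U.bot (e ▸ (U.inf _ _).2 ⟨hp, hq⟩)
  have h4 : r ∈ (LowerSet.Iic q)ᶜᶜ := io_le.1 h2
  have h5 := mem_compl.1 h4 r le_rfl
  rw [mem_compl] at h5
  push Not at h5
  obtain ⟨s, h6, h7⟩ := h5
  exact ⟨s, h6.trans h1, h7⟩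

theorem Fo.of_dense {p : P} (Φ : Ult (RO P) → Prop) [Rep Φ] (h : ∀ q ≤ p, ∃ r ≤ q, Fo r Φ) :
    Fo p Φ := by
  intro U hU
  by_contra h1
  obtain ⟨q, h2, h3⟩ := exists_fo (fun U => ¬ Φ U) hU h1
  obtain ⟨r, h4, h5⟩ := h q h2
  obtain ⟨V, hV⟩ := exists_ult r
  exact h3.mono h4 V hV (h5 V hV)

theorem all_of_dense (Φ : Ult (RO P) → Prop) [Rep Φ] (h : ∀ q, ∃ r ≤ q, Fo r Φ) (U : Ult (RO P)) :
    Φ U := by
  by_contra h1
  obtain ⟨q, h3⟩ := exists_fo' (fun U => ¬ Φ U) h1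
  obtain ⟨r, h4, h5⟩ := h q
  obtain ⟨V, hV⟩ := exists_ult r
  exact h3.mono h4 V hV (h5 V hV)

theorem decide (Φ : Ult (RO P) → Prop) [Rep Φ] (q : P) :
    ∃ r ≤ q, Fo r Φ ∨ Fo r fun U => ¬ Φ U := by
  by_cases h : Fo q Φ
  · exact ⟨q, le_rfl, Or.inl h⟩
  · simp only [Fo, not_forall] at h
    obtain ⟨U, h1, h2⟩ := h
    obtain ⟨r, h3, h4⟩ := exists_fo (fun U => ¬ Φ U) h1 h2
    exact ⟨r, h3, Or.inr h4⟩

/-- A forced bounded existential statement is densely witnessed by a listed element. -/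
theorem dec_ex (y : Nm (RO P)) (Φ : ∀ U : Ult (RO P), U.M → Prop)
    [∀ x, Rep (fun U => Φ U (U.cl x))] {q : P} (h : Fo q fun U => ∃ a, U.E a (U.cl y) ∧ Φ U a) :
    ∃ r ≤ q, ∃ i, Fo r fun U => U.P (y.val i) ∧ Φ U (U.cl (y.fn i)) := by
  by_contra h0
  push Not at h0
  obtain ⟨U, hU⟩ := exists_ult q
  obtain ⟨a, h1, h2⟩ := h U hU
  refine mem_elim y (fun V a => V.P (io q) → ¬ Φ V a) (fun V i h3 h4 h5 => ?_) U a h1 hU h2
  obtain ⟨r, h6, h7⟩ := exists_fo (fun U => U.P (y.val i) ∧ Φ U (U.cl (y.fn i))) h4 ⟨h3, h5⟩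
  exact h0 r h6 i h7

/-- The Boolean value of: some condition with property `A` is in the generic filter. -/
noncomputable def gen (A : P → Prop) : RO P := ⨆ p : {p // A p}, io p.1

theorem gen_intro {A : P → Prop} {p : P} (h : A p) : Fo p fun U => U.P (gen A) :=
  fun U hU => U.mono (le_iSup (fun p : {p // A p} => io p.1) ⟨p, h⟩) hU

theorem gen_elim {A : P → Prop} (Φ : Ult (RO P) → Prop) [Rep Φ] (h : ∀ p, A p → Fo p Φ)
    (U : Ult (RO P)) (hU : U.P (gen A)) : Φ U :=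
  sup_elim (fun p : {p // A p} => io p.1) Φ (fun V p hp => h p.1 p.2 V hp) U hU

theorem gen_two {A A' : P → Prop} {U : Ult (RO P)} (h : U.P (gen A)) (h' : U.P (gen A')) :
    ∃ p q r, A p ∧ A' q ∧ r ≤ p ∧ r ≤ q := by
  refine gen_elim (fun U => U.P (gen A') → ∃ p q r, A p ∧ A' q ∧ r ≤ p ∧ r ≤ q)
    (fun p hp V hV h2 => ?_) U h h'
  refine gen_elim (fun U => U.P (io p) → ∃ p q r, A p ∧ A' q ∧ r ≤ p ∧ r ≤ q)
    (fun q hq W h3 h4 => ?_) V h2 hV
  obtain ⟨r, h5, h6⟩ := exists_common h4 h3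
  exact ⟨p, q, r, hp, hq, h5, h6⟩

theorem gen_one {A : P → Prop} {U : Ult (RO P)} {q : P} (h : U.P (gen A)) (h' : U.P (io q)) :
    ∃ p r, A p ∧ r ≤ p ∧ r ≤ q := by
  refine gen_elim (fun U => U.P (io q) → ∃ p r, A p ∧ r ≤ p ∧ r ≤ q)
    (fun p hp V hV h2 => ?_) U h h'
  obtain ⟨r, h5, h6⟩ := exists_common hV h2
  exact ⟨p, r, hp, h5, h6⟩

attribute [irreducible] io gen RO

end poset

section names
variable {B : Type} [CompleteBooleanAlgebra B]

theorem not_mem_self (U : Ult B) (x : U.M) : ¬ U.E x x := fun h => by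
  obtain ⟨p, hp⟩ := U.zfc.pair x x
  obtain ⟨y, h1, h2⟩ := U.found p ⟨x, (hp x).2 (Or.inl rfl)⟩
  obtain rfl : y = x := by simpa using (hp y).1 h1
  exact h2 y h h1

/-- A listed family. -/
abbrev lst {ι : Type} (A : ι → Nm B) : Nm B := ⟨ι, A, fun _ => ⊤⟩

theorem lst_intro (U : Ult B) {ι : Type} (A : ι → Nm B) (i : ι) :
    U.E (U.cl (A i)) (U.cl (lst A)) := U.E_intro (lst A) i U.top

theorem lst_elim {ι : Type} (A : ι → Nm B) (Q : ∀ U : Ult B, U.M → Prop)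
    [∀ x, Rep (fun U => Q U (U.cl x))] (h : ∀ U i, Q U (U.cl (A i))) (U : Ult B) (a : U.M)
    (ha : U.E a (U.cl (lst A))) : Q U a := mem_elim (lst A) Q (fun U i _ => h U i) U a ha

theorem fn_gen {ι κ : Type} (A : ι → Nm B) (X Y : κ → Nm B) (v : κ → B)
    (R : ∀ U : Ult B, U.M → U.M → Prop) [∀ x y, Rep (fun U => R U (U.cl x) (U.cl y))]
    (h1 : ∀ (U : Ult B) s, U.P (v s) → U.E (U.cl (X s)) (U.cl (lst A)) ∧
      R U (U.cl (X s)) (U.cl (Y s)))
    (h2 : ∀ (U : Ult B) i, ∃ y, Ap U.E (U.cl (grN X Y v)) (U.cl (A i)) y)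
    (h3 : ∀ (U : Ult B) s t, U.P (v s) → U.P (v t) → U.cl (X s) = U.cl (X t) →
      U.cl (Y s) = U.cl (Y t)) (U : Ult B) :
    Fn U.E (U.cl (lst A)) (R U) (U.cl (grN X Y v)) := by
  refine ⟨grN_dom X Y v _ (fun V s h => (h1 V s h).1) U, fun x hx => ?_,
    ap_elim X Y v R (fun V s h => (h1 V s h).2) U⟩
  obtain ⟨y, hy⟩ := lst_elim A (fun U x => ∃ y, Ap U.E (U.cl (grN X Y v)) x y) h2 U x hx
  refine ⟨y, hy, fun y' hy' => ?_⟩
  refine ap_elim X Y v (fun V x y => ∀ y', Ap V.E (V.cl (grN X Y v)) x y' → y' = y)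
    (fun V s hs y' h => ?_) U x y hy y' hy'
  exact ap_elim X Y v (fun V x y => V.P (v s) → x = V.cl (X s) → y = V.cl (Y s))
    (fun W t ht hs => h3 W t s ht hs) V _ y' h hs rfl

theorem le_gen {ι κ : Type} (A : ι → Nm B) (Z : Nm B) (X Y : κ → Nm B) (v : κ → B)
    (h2 : ∀ (U : Ult B) i, ∃ y, U.E y (U.cl Z) ∧ Ap U.E (U.cl (grN X Y v)) (U.cl (A i)) y)
    (h3 : ∀ (U : Ult B) s t, U.P (v s) → U.P (v t) →
      (U.cl (X s) = U.cl (X t) ↔ U.cl (Y s) = U.cl (Y t))) (U : Ult B) :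
    Le U.E (fun x => U.E x (U.cl (lst A))) (fun y => U.E y (U.cl Z)) := by
  refine ⟨U.cl (grN X Y v), lst_elim A (fun U x => ∃ y, U.E y (U.cl Z) ∧
    Ap U.E (U.cl (grN X Y v)) x y) h2 U, fun x x' y y' h h' => ?_⟩
  refine ap_elim X Y v (fun V x y => ∀ x' y', Ap V.E (V.cl (grN X Y v)) x' y' →
    (x = x' ↔ y = y')) (fun V s hs x' y' h => ?_) U x y h x' y' h'
  exact ap_elim X Y v (fun V x y => V.P (v s) → (V.cl (X s) = x ↔ V.cl (Y s) = y))
    (fun W t ht hs => h3 W s t hs ht) V _ _ h hs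

theorem le_chk {ι : Type} (A C : ι → Nm B) (Z : Nm B)
    (h2 : ∀ (U : Ult B) i, U.E (U.cl (C i)) (U.cl Z))
    (h3 : ∀ (U : Ult B) s t, (U.cl (A s) = U.cl (A t) ↔ U.cl (C s) = U.cl (C t))) (U : Ult B) :
    Le U.E (fun x => U.E x (U.cl (lst A))) (fun y => U.E y (U.cl Z)) :=
  le_gen A Z A C (fun _ => ⊤) (fun V i => ⟨_, h2 V i, V.ap_grN A C _ i V.top⟩)
    (fun V s t _ _ => h3 V s t) U

variable {O : Type} [LinearOrder O] [WellFoundedLT O]

/-- The ordinal of `a`. -/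
noncomputable def oN : O → Nm B :=
  (wellFounded_lt (α := O)).fix fun a ih => lst fun b : Iio a => ih b.1 b.2

/-- A ground-model set of ordinals. -/
noncomputable abbrev setN (X : Set O) : Nm B := lst fun b : X => oN b.1

theorem oN_eq (a : O) : (oN a : Nm B) = setN (Iio a) := by
  rw [oN, WellFounded.fix_eq]; rfl

theorem setN_intro (U : Ult B) {X : Set O} {a : O} (h : a ∈ X) :
    U.E (U.cl (oN a)) (U.cl (setN X)) := lst_intro U (fun b : X => oN b.1) ⟨a, h⟩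

theorem setN_elim (X : Set O) (Q : ∀ U : Ult B, U.M → Prop)
    [∀ x, Rep (fun U => Q U (U.cl x))] (h : ∀ U, ∀ a ∈ X, Q U (U.cl (oN a))) (U : Ult B) (a : U.M)
    (ha : U.E a (U.cl (setN X))) : Q U a := lst_elim _ Q (fun U i => h U i.1 i.2) U a ha

theorem oN_intro (U : Ult B) {a b : O} (h : a < b) : U.E (U.cl (oN a)) (U.cl (oN b)) := by
  rw [oN_eq b]; exact setN_intro U h

theorem oN_inj (U : Ult B) {a b : O} : U.cl (oN a) = U.cl (oN b) ↔ a = b := by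
  refine ⟨fun h => ?_, fun h => h ▸ rfl⟩
  by_contra hne
  rcases lt_or_gt_of_ne hne with h1 | h1
  · exact not_mem_self U _ (h ▸ oN_intro U h1)
  · exact not_mem_self U _ (h ▸ oN_intro U h1)

theorem oN_mem (U : Ult B) {X : Set O} {a : O} : U.E (U.cl (oN a)) (U.cl (setN X)) ↔ a ∈ X :=
  ⟨fun h => setN_elim X (fun U z => z = U.cl (oN a) → a ∈ X)
    (fun V _ hb e => by rw [← (oN_inj V).1 e]; exact hb) U _ h rfl, setN_intro U⟩

theorem oN_lt (U : Ult B) {a b : O} : U.E (U.cl (oN a)) (U.cl (oN b)) ↔ a < b := by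
  rw [oN_eq b]; exact oN_mem U

theorem setN_inj (U : Ult B) {X Y : Set O} : U.cl (setN X) = U.cl (setN Y) ↔ X = Y :=
  ⟨fun h => Set.ext fun a => by rw [← oN_mem U, h, oN_mem], fun h => h ▸ rfl⟩

theorem oN_elim (b : O) (Q : ∀ U : Ult B, U.M → Prop)
    [∀ x, Rep (fun U => Q U (U.cl x))] (h : ∀ U, ∀ a < b, Q U (U.cl (oN a))) (U : Ult B) (a : U.M)
    (ha : U.E a (U.cl (oN b))) : Q U a := setN_elim (Iio b) Q h U a (by rwa [← oN_eq])

theorem setN_trans {X : Set O} (hX : IsLowerSet X) (U : Ult B) (x y : U.M) (h : U.E x y)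
    (h' : U.E y (U.cl (setN X))) : U.E x (U.cl (setN X)) :=
  setN_elim X (fun U y => ∀ x, U.E x y → U.E x (U.cl (setN X))) (fun V b hb =>
    oN_elim b (fun U x => U.E x (U.cl (setN X))) (fun W _ h => setN_intro W (hX h.le hb)) V)
    U y h' x h

theorem setN_tri (X : Set O) (U : Ult B) (x y : U.M) (h : U.E x (U.cl (setN X)))
    (h' : U.E y (U.cl (setN X))) : U.E x y ∨ x = y ∨ U.E y x :=
  setN_elim X (fun U x => ∀ y, U.E y (U.cl (setN X)) → U.E x y ∨ x = y ∨ U.E y x)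
    (fun V a _ => setN_elim X (fun U y => U.E (U.cl (oN a)) y ∨ U.cl (oN a) = y ∨
      U.E y (U.cl (oN a))) (fun W b _ => by
        rw [oN_lt, oN_lt, oN_inj]; exact lt_trichotomy a b) V) U x h y h'

theorem oN_nat (U : Ult B) {ν : ℕ → O} (h : ∀ n x, x < ν n ↔ ∃ k < n, x = ν k) (n : ℕ) :
    U.cl (oN (ν n)) = U.num n := by
  induction n using Nat.strong_induction_on generalizing U with
  | _ n ih =>
    refine U.ext' _ _ fun z => ⟨fun hz => ?_, fun hz => ?_⟩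
    · refine oN_elim (ν n) (fun U z => U.E z (U.num n)) (fun V a ha => ?_) U z hz
      obtain ⟨k, hk, rfl⟩ := (h n a).1 ha
      rw [ih k hk]; exact V.num_mem_num.2 hk
    · obtain ⟨k, hk, rfl⟩ := (U.E_num n z).1 hz
      rw [← ih k hk]; exact oN_intro U ((h n _).2 ⟨k, hk, rfl⟩)

theorem oN_om (U : Ult B) {ν : ℕ → O} {w : O} (hw : ∀ x, x < w ↔ ∃ n, x = ν n)
    (h : ∀ n x, x < ν n ↔ ∃ k < n, x = ν k) : U.cl (oN w) = U.om := by
  refine U.ext' _ _ fun z => ⟨fun hz => ?_, fun hz => ?_⟩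
  · refine oN_elim w (fun U z => U.E z U.om) (fun V a ha => ?_) U z hz
    obtain ⟨k, rfl⟩ := (hw a).1 ha
    rw [oN_nat V h]; exact V.num_mem_om k
  · refine om_elim (fun U z => U.E z (U.cl (oN w))) (fun V k => ?_) U z hz
    rw [← oN_nat V h]; exact oN_intro V ((hw _).2 ⟨k, rfl⟩)

attribute [irreducible] oN

/-- A ground-model sequence of ordinals. -/
noncomputable def seqO (l : ℕ → O) : Nm B := grN numN (fun n => oN (l n)) fun _ => ⊤

theorem ap_seqO (U : Ult B) (l : ℕ → O) (n : ℕ) (y : U.M) :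
    Ap U.E (U.cl (seqO l)) (U.num n) y ↔ y = U.cl (oN (l n)) :=
  ⟨fun h => ap_elim numN (fun n => oN (l n)) _ (fun V a b => a = V.num n → b = V.cl (oN (l n)))
    (fun V _ _ e => by rw [V.num_inj.1 e]) U _ _ h rfl,
    fun h => h ▸ U.ap_grN numN (fun n => oN (l n)) _ n U.top⟩

theorem fn_seqO (l : ℕ → O) (R : ∀ U : Ult B, U.M → U.M → Prop)
    [∀ x y, Rep (fun U => R U (U.cl x) (U.cl y))] (h : ∀ U n, R U (U.num n) (U.cl (oN (l n))))
    (U : Ult B) : Fn U.E U.om (R U) (U.cl (seqO l)) :=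
  fn_gen numN numN (fun n => oN (l n)) _ R (fun V n _ => ⟨V.num_mem_om n, h V n⟩)
    (fun V n => ⟨_, (ap_seqO V l n _).2 rfl⟩) (fun V s t _ _ e => by rw [V.num_inj.1 e]) U

theorem seqO_inj (U : Ult B) {l l' : ℕ → O} (h : U.cl (seqO l) = U.cl (seqO l')) : l = l' :=
  funext fun n => (oN_inj U).1 ((ap_seqO U l' n _).1 (h ▸ (ap_seqO U l n _).2 rfl))

/-- The ground-model power set. -/
noncomputable abbrev powN (X : Set O) : Nm B := lst fun Y : Set X => setN (Subtype.val '' Y)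

end names

section distr
variable {P : Type} [Preorder P] {O : Type} [LinearOrder O] [WellFoundedLT O]

variable (P) in
/-- Any `L` many open sets that are dense below a condition meet below it. -/
def Distr (L : Cardinal.{0}) : Prop :=
  ∀ (I : Type), #I ≤ L → ∀ (p : P) (D : I → P → Prop), (∀ i r r', D i r → r' ≤ r → D i r') →
    (∀ i, ∀ q ≤ p, ∃ r ≤ q, D i r) → ∃ r ≤ p, ∀ i, D i r

variable {L : Cardinal.{0}} (hD : Distr P L)
include hD

theorem no_inj {X Y : Set O} (hY : #Y ≤ L) (h : #Y < #X) (U : Ult (RO P)) :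
    ¬ Le U.E (fun x => U.E x (U.cl (setN X))) (fun y => U.E y (U.cl (setN Y))) := by
  rintro ⟨f, hf⟩
  obtain ⟨f, rfl⟩ := U.cl_surj f
  obtain ⟨p, hp⟩ := exists_fo' (fun U => (∀ x, U.E x (U.cl (setN X)) → ∃ y, U.E y (U.cl (setN Y)) ∧
    Ap U.E (U.cl f) x y) ∧ ∀ x x' y y', Ap U.E (U.cl f) x y → Ap U.E (U.cl f) x' y' →
      (x = x' ↔ y = y')) hf
  obtain ⟨r, h1, h2⟩ := hD Y hY p (fun c r => ∃ a : O, ∀ b, ∀ r' ≤ r,
      (Fo r' fun U => Ap U.E (U.cl f) (U.cl (oN b)) (U.cl (oN c.1))) → b = a)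
    (fun c r r' ⟨a, ha⟩ h => ⟨a, fun b r'' h' => ha b r'' (h'.trans h)⟩) (fun c q hq => by
      by_cases h : ∃ a : O, ∃ r ≤ q, Fo r fun U => Ap U.E (U.cl f) (U.cl (oN a)) (U.cl (oN c.1))
      · obtain ⟨a, r, h1, h2⟩ := h
        refine ⟨r, h1, a, fun b r' h3 h4 => ?_⟩
        obtain ⟨V, hV⟩ := exists_ult r'
        exact (oN_inj V).1 (((hp.mono (h3.trans (h1.trans hq)) V hV).2 _ _ _ _ (h4 V hV)
          (h2.mono h3 V hV)).2 rfl)
      · exact ⟨q, le_rfl, c.1, fun b r' h3 h4 => (h ⟨b, r', h3, h4⟩).elim⟩)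
  choose a ha using h2
  obtain ⟨b, hb, hb2⟩ : ∃ b ∈ X, b ∉ range a := by
    by_contra h0
    push Not at h0
    exact h.not_ge ((mk_le_mk_of_subset h0).trans mk_range_le)
  obtain ⟨r', h3, c, h4⟩ := dec_ex (setN Y) (fun U y => Ap U.E (U.cl f) (U.cl (oN b)) y) (q := r)
    fun V hV => (hp.mono h1 V hV).1 _ (setN_intro V hb)
  exact hb2 ⟨c, (ha c b r' h3 fun V hV => (h4 V hV).2).symm⟩

theorem mem_powN {X : Set O} (hX : #X ≤ L) (U : Ult (RO P)) (z : U.M) :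
    U.E z (U.cl (powN X)) ↔ ∀ t, U.E t z → U.E t (U.cl (setN X)) := by
  constructor
  · exact lst_elim _ (fun U z => ∀ t, U.E t z → U.E t (U.cl (setN X))) (fun V Y =>
      setN_elim _ (fun U t => U.E t (U.cl (setN X)))
        (fun W _ h => by obtain ⟨a, -, rfl⟩ := h; exact setN_intro W a.2) V) U z
  · obtain ⟨z, rfl⟩ := U.cl_surj z
    refine all_of_dense (fun U => (∀ t, U.E t (U.cl z) → U.E t (U.cl (setN X))) →
      U.E (U.cl z) (U.cl (powN X))) (fun q => ?_) U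
    obtain ⟨r, h1, h2⟩ := hD X hX q (fun a r => (Fo r fun U => U.E (U.cl (oN a.1)) (U.cl z)) ∨
        Fo r fun U => ¬ U.E (U.cl (oN a.1)) (U.cl z))
      (fun a r r' h h' => h.imp (·.mono h') (·.mono h')) (fun a q _ => decide _ q)
    refine ⟨r, h1, fun V hV h => ?_⟩
    let Y : Set X := {a | Fo r fun U => U.E (U.cl (oN a.1)) (U.cl z)}
    have : V.cl z = V.cl (setN (Subtype.val '' Y)) := by
      refine V.ext' _ _ fun t => ⟨fun ht => ?_, fun ht => ?_⟩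
      · refine setN_elim X (fun U t => U.P (io r) → U.E t (U.cl z) →
          U.E t (U.cl (setN (Subtype.val '' Y)))) (fun W a ha h3 h4 => ?_) V t (h t ht) hV ht
        exact setN_intro W ⟨⟨a, ha⟩, (h2 ⟨a, ha⟩).resolve_right fun h5 => h5 W h3 h4, rfl⟩
      · exact setN_elim _ (fun U t => U.P (io r) → U.E t (U.cl z))
          (fun W _ h3 h4 => by obtain ⟨a, h3, rfl⟩ := h3; exact h3 W h4) V t ht hV
    rw [this]
    exact lst_intro V (fun Y : Set X => setN (Subtype.val '' Y)) Y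

/-- A forced `ω`-sequence in a ground-model set of ordinals is densely a ground-model sequence. -/
theorem dec_seq (hL : ℵ₀ ≤ L) (X : Set O) (f : Nm (RO P)) {q : P}
    (h : Fo q fun U => Fn U.E U.om (fun _ y => U.E y (U.cl (setN X))) (U.cl f)) :
    ∃ r ≤ q, ∃ l : ℕ → O, Fo r fun U => U.cl f = U.cl (seqO l) := by
  obtain ⟨r, h1, h2⟩ := hD ℕ (by simpa using hL) q
    (fun n r => ∃ a : O, Fo r fun U => Ap U.E (U.cl f) (U.num n) (U.cl (oN a)))
    (fun n r r' ⟨a, h⟩ h' => ⟨a, h.mono h'⟩) (fun n q' hq => by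
      obtain ⟨r, h1, a, h2⟩ := dec_ex (setN X) (fun U y => Ap U.E (U.cl f) (U.num n) y) (q := q')
        fun V hV => by
          have := h.mono hq V hV
          obtain ⟨y, hy, -⟩ := this.2.1 _ (V.num_mem_om n)
          exact ⟨y, this.2.2 _ _ hy, hy⟩
      exact ⟨r, h1, a, fun V hV => (h2 V hV).2⟩)
  choose l hl using h2
  refine ⟨r, h1, l, fun V hV => ?_⟩
  have h3 := h.mono h1 V hV
  have h4 := fn_seqO l (fun _ _ _ => True) (fun _ _ => trivial) V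
  have key : ∀ x, V.E x V.om → ∀ y, Ap V.E (V.cl f) x y ↔ Ap V.E (V.cl (seqO l)) x y := by
    intro x hx
    refine om_elim (fun U x => U.P (io r) → ∀ y, Ap U.E (U.cl f) x y ↔
      Ap U.E (U.cl (seqO l)) x y) (fun W n hW y => ?_) V x hx hV
    rw [ap_seqO]
    exact ⟨fun h5 => (h.mono h1 W hW).unique W.zfc h5 (hl n W hW), fun h5 => h5 ▸ hl n W hW⟩
  exact h3.ext V.zfc h4 fun x y => ⟨fun h5 => (key x (h3.dom V.zfc h5) y).1 h5,
    fun h5 => (key x (h4.dom V.zfc h5) y).2 h5⟩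

end distr

end Pool.Agent.Lib.PosetForcing
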